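import Mathlib
import Pool.Agent.Q78.FO.Reduced

set_option autoImplicit false

/-!
# The cone of curves: the genus of the possible further extremal rays

Let `p 1, …, p n`, `n ≥ 4`, be very general points of the complex projective plane and `X` the
blow-up. The closed cone of curves is contained in the closed convex cone spanned by the positive
cone, the classes of the `(-1)`-curves, and the classes `(d; w)` of the irreducible curves `C` with
`C ^ 2 < 0 < K C` and
`K C - C ^ 2 ≤ 2 ∑ binom (y - 1) 2` (sum over `y ∈ Y`)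
for every finite set `Y` such that every `w i ≥ 2` is one of the numbers `y` and `y - 1`, `y ∈ Y`,
for instance for the set of the different multiplicities. In particular the arithmetic genus of such
a curve is at most `∑ binom (y - 1) 2`, whatever the number of the points is. Moreover, the same
holds for the multiplicities `w1` of the standard form of the class, which are at most those of `C`.
Question Q1 asks whether the last kind of classes may be omitted.

The inequality holds for all reduced curves through very general points. The proof: if at one of the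
points `p i` the leading forms of the members of the system with `w i` lowered by one are spanned by
one form, then a derivation of the field which moves `p i` maps the system into itself, and the
curve over the field of constants which contains `p i` is contained `w i` times in all the members.
-/

namespace Pool.Agent.Results.MP_309968_ag.GenusOfRemainingCurves

open MvPolynomial Pool.Agent.TH167 Pool.Agent.TH167.SHDefs
open Pool.Agent.Q310.FP (Standard)

/-- The class of degree `d` and multiplicities `w` in the real vector space of classes. -/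
def cls {n : ℕ} (d : ℕ) (w : Fin n → ℕ) : ℝ × (Fin n → ℝ) := ((d : ℝ), fun i => (w i : ℝ))

/-- The classes of the exceptional curves `E i`. -/
def exceptional (n : ℕ) : Set (ℝ × (Fin n → ℝ)) :=
  {v | ∃ i : Fin n, v = ((0 : ℝ), (Pi.single i (-1 : ℝ) : Fin n → ℝ))}

/-- The classes of the irreducible curves on the blow-up. -/
def curveClasses {n : ℕ} (p : Fin n → Fin 2 → ℂ) : Set (ℝ × (Fin n → ℝ)) :=
  {v | ∃ (G : MvPolynomial (Fin 3) ℂ) (d : ℕ) (w : Fin n → ℕ), Curve p G d w ∧ v = cls d w} ∪
    exceptional n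

/-- The classes of the `(-1)`-curves on the blow-up. -/
def minusOneClasses {n : ℕ} (p : Fin n → Fin 2 → ℂ) : Set (ℝ × (Fin n → ℝ)) :=
  {v | ∃ (G : MvPolynomial (Fin 3) ℂ) (d : ℕ) (w : Fin n → ℕ), MinusOne p G d w ∧ v = cls d w} ∪
    exceptional n

/-- The positive cone. -/
def positiveCone (n : ℕ) : Set (ℝ × (Fin n → ℝ)) :=
  {v | 0 ≤ v.1 ∧ ∑ i, v.2 i ^ 2 ≤ v.1 ^ 2}

/-- The closed convex cone spanned by a set of classes. -/
def closedCone {n : ℕ} (S : Set (ℝ × (Fin n → ℝ))) : Set (ℝ × (Fin n → ℝ)) :=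
  closure (Submodule.span {c : ℝ // 0 ≤ c} S : Set (ℝ × (Fin n → ℝ)))

/-- Every multiplicity which is at least `2` is one of the numbers `y` and `y - 1` for an element
`y` of `Y`. -/
def Adapted {n : ℕ} (Y : Finset ℕ) (w : Fin n → ℕ) : Prop :=
  ∀ i, 2 ≤ w i → w i ∈ Y ∨ w i + 1 ∈ Y

/-- The sum of the numbers `binom (y - 1) 2` over `y ∈ Y`. -/
def bound (Y : Finset ℕ) : ℤ := ∑ y ∈ Y, ((y - 1).choose 2 : ℤ)

/-- The restrictions on the class `(d; w)` of a negative curve which is not a `(-1)`-curve; `VG` are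
the very general point sets. -/
structure Remaining {n : ℕ} (VG : (Fin n → Fin 2 → ℂ) → Prop) (d : ℕ) (w : Fin n → ℕ) :
    Prop where
  neg : inter d w d w < 0
  can : 0 < interK d w
  genus : ∀ Y : Finset ℕ, Adapted Y w → interK d w - inter d w d w ≤ 2 * bound Y
  form : ∃ (p1 : Fin n → Fin 2 → ℂ) (d1 : ℕ) (w1 : Fin n → ℕ) (C1 : MvPolynomial (Fin 3) ℂ),
    VG p1 ∧ Curve p1 C1 d1 w1 ∧ Relation.ReflTransGen Quadratic (d, w) (d1, w1) ∧
    Standard d1 w1 ∧ d1 ≤ d ∧ (∀ i, w1 i ≤ w i) ∧
    ∀ Y : Finset ℕ, Adapted Y w1 → interK d w - inter d w d w ≤ 2 * bound Y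

/-- The inequality for irreducible curves. -/
theorem curve_ineq {n : ℕ} {p : Fin n → Fin 2 → ℂ}
    (hp : AlgebraicIndependent ℚ (fun q : Fin n × Fin 2 => p q.1 q.2))
    {G : MvPolynomial (Fin 3) ℂ} {d : ℕ} {w : Fin n → ℕ} (hG : Curve p G d w) (Y : Finset ℕ)
    (hY : Adapted Y w) : interK d w - inter d w d w ≤ 2 * bound Y := by
  refine Pool.Agent.Q78.FO.reduced_inter hp hG.homogeneous (fun i => (hG.mult i).1)
    hG.irreducible.ne_zero (fun c H hc hH hH0 hdvd => ?_) Y hY
  have h1 : IsUnit H := hG.irreducible.squarefree H (by rwa [← sq])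
  obtain ⟨H', hH'⟩ := h1.exists_right_inv
  have hH'0 : H' ≠ 0 := by
    rintro rfl
    rw [mul_zero] at hH'
    exact zero_ne_one hH'
  have h2 : (H * H').totalDegree = H.totalDegree + H'.totalDegree :=
    totalDegree_mul_of_isDomain hH0 hH'0
  rw [hH', totalDegree_one, hH.totalDegree hH0] at h2
  omega

theorem result (n : ℕ) (hn : 4 ≤ n) :
    ∃ f : ℕ → MvPolynomial (Fin n × Fin 2) ℂ, (∀ k, f k ≠ 0) ∧
      ∀ p : Fin n → Fin 2 → ℂ,
        (∀ k, MvPolynomial.eval (fun q : Fin n × Fin 2 => p q.1 q.2) (f k) ≠ 0) →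
        closedCone (curveClasses p) ⊆
          closedCone (positiveCone n ∪ minusOneClasses p ∪
            {v | ∃ (G : MvPolynomial (Fin 3) ℂ) (d : ℕ) (w : Fin n → ℕ), Curve p G d w ∧
              v = cls d w ∧
              Remaining (fun p1 => ∀ k,
                MvPolynomial.eval (fun q : Fin n × Fin 2 => p1 q.1 q.2) (f k) ≠ 0) d w}) := by
  classical
  obtain ⟨Z, hZ, h⟩ := SH.exists_fam (Fin n × Fin 2)
  refine ⟨Z, hZ, fun p hp0 => closure_mono (Submodule.span_mono ?_)⟩
  have hp := (h _).1 hp0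
  rintro v (⟨C, d, w, hC, rfl⟩ | hv)
  swap
  · exact Or.inl (Or.inr (Or.inr hv))
  by_cases hpos : 0 ≤ inter d w d w
  · refine Or.inl (Or.inl ⟨Nat.cast_nonneg _, ?_⟩)
    have h1 : ((inter d w d w : ℤ) : ℝ) = (d : ℝ) * d - ∑ i, (w i : ℝ) * w i := by
      unfold inter
      push_cast
      rfl
    have h2 : (0 : ℝ) ≤ ((inter d w d w : ℤ) : ℝ) := by exact_mod_cast hpos
    show ∑ i, (w i : ℝ) ^ 2 ≤ (d : ℝ) ^ 2
    simp only [sq]
    linarith
  push Not at hpos
  by_cases hM : MinusOne p C d w
  · exact Or.inl (Or.inr (Or.inl ⟨C, d, w, hM, rfl⟩))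
  refine Or.inr ⟨C, d, w, hC, rfl, ?_⟩
  obtain ⟨hK0, P1, d1, w1, C1, a1, a2, a3, a4, a5, a6, a7, a8, a9, -⟩ :=
    Pool.Agent.Q310.FP.neg_rem hn (R := fun _ _ => True) (fun _ _ _ => Or.inr trivial) hp hC hpos hM
  refine ⟨hpos, hK0, fun Y hY => curve_ineq hp hC Y hY, P1, d1, w1, C1, (h _).2 a1, a2, a3, a4, a5,
    a6, fun Y hY => ?_⟩
  rw [← a7, ← a8]
  exact curve_ineq a1 a2 Y hY

end Pool.Agent.Results.MP_309968_ag.GenusOfRemainingCurves
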