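import Mathlib
import Pool.Agent.Q310.NR.Norm

set_option autoImplicit false

/-!
# The faces of the closed cone of curves at the Nagata rays

Let `p 1, …, p n` be very general points of the complex projective plane, `X` the blow-up, `T` a set of
`t ≥ 10` of the points and `D = √t H - ∑_{i ∈ T} E i`, a class on the boundary of the positive cone.
* Every plane curve `C` satisfies `D C > 0`, and `D C ≥ 1 - 3 / √t` if `t ≥ 12`.
* `D` is nef, and every element of the face `D^⊥` of the closed cone of curves is of the form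
  `a D + ∑_{j ∉ T} b j E j` with `a, b j ≥ 0`, as in the conjectural cone. In particular, if `T` is the
  set of all points, then `D` spans an extremal ray.
* For `t ≥ 13` every class `v` in the closed cone of curves satisfies
  `√(∑_{i ∈ T} (v i) ^ 2 + ∑_{j ∉ T} max (v j) 0 ^ 2) ≤ H v + D v`: adding `(D v) H` to `v` one gets an
  element of the positive cone plus a nonnegative combination of the `E j`, `j ∉ T`. For `t = 12` this
  holds with `5 / 4 D v` in place of `D v`, and for `t ≥ 10` there are weaker inequalities.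
* Dually, for `t ≥ 13`, the class `c H - ∑ x i E i`, with `x j ≥ 0` for `j ∉ T`, is nef if
  `(√t + 1) ∑ (x i) ^ 2 + (√t - 1) c ^ 2 ≤ 2 c ∑_T x i`. For `c = 1` this is a ball of radius
  `1 / (√t + 1)`, which touches the unit sphere (the boundary of the positive cone) at `D`.
-/

namespace Pool.Agent.Results.MP_309968_ag.NagataRays

open MvPolynomial Pool.Agent.TH167 Pool.Agent.TH167.SHDefs Pool.Agent.Q310.NR

/-- The class of degree `d` and multiplicities `w` in the real vector space of classes. -/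
def cls {n : ℕ} (d : ℕ) (w : Fin n → ℕ) : ℝ × (Fin n → ℝ) := ((d : ℝ), fun i => (w i : ℝ))

/-- The classes of the irreducible curves on the blow-up. -/
def curveClasses {n : ℕ} (p : Fin n → Fin 2 → ℂ) : Set (ℝ × (Fin n → ℝ)) :=
  {v | ∃ (G : MvPolynomial (Fin 3) ℂ) (d : ℕ) (w : Fin n → ℕ), Curve p G d w ∧ v = cls d w} ∪
    {v | ∃ i : Fin n, v = ((0 : ℝ), (Pi.single i (-1 : ℝ) : Fin n → ℝ))}

/-- The closed cone of curves. -/
def curvCone {n : ℕ} (p : Fin n → Fin 2 → ℂ) : Set (ℝ × (Fin n → ℝ)) :=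
  closure (Submodule.span {c : ℝ // 0 ≤ c} (curveClasses p) : Set (ℝ × (Fin n → ℝ)))

/-- The intersection number with `√|T| H - ∑_{i ∈ T} E i`. -/
noncomputable def nag {n : ℕ} (T : Finset (Fin n)) (v : ℝ × (Fin n → ℝ)) : ℝ :=
  √(T.card : ℝ) * v.1 - ∑ i ∈ T, v.2 i

/-- The sum of the squares of the coordinates in `T` and of the positive coordinates outside `T`. -/
noncomputable def sqs {n : ℕ} (T : Finset (Fin n)) (v : ℝ × (Fin n → ℝ)) : ℝ :=
  ∑ i ∈ T, v.2 i ^ 2 + ∑ i ∈ Tᶜ, max (v.2 i) 0 ^ 2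

theorem lin {n : ℕ} {p : Fin n → Fin 2 → ℂ} {T : Finset (Fin n)} {u : Fin n → ℝ} {a C : ℝ}
    (h : ∀ v ∈ curveClasses p, ∑ i, u i * v.2 i ≤ a * v.1 + C * nag T v) :
    ∀ v ∈ curvCone p, ∑ i, u i * v.2 i ≤ a * v.1 + C * nag T v := by
  intro x hx
  have hspan : ∀ v ∈ Submodule.span {c : ℝ // 0 ≤ c} (curveClasses p),
      ∑ i, u i * v.2 i ≤ a * v.1 + C * nag T v := by
    intro v hv
    refine Submodule.span_induction ?_ ?_ ?_ ?_ hv
    · exact fun v hv => h v hv
    · simp [nag]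
    · intro y z _ _ hy hz
      have h1 : nag T (y + z) = nag T y + nag T z := by
        unfold nag
        simp only [Prod.fst_add, Prod.snd_add, Pi.add_apply, Finset.sum_add_distrib]
        ring
      rw [h1]
      simp only [Prod.fst_add, Prod.snd_add, Pi.add_apply, mul_add, Finset.sum_add_distrib]
      linarith
    · rintro ⟨b, hb⟩ v _ hv
      have h1 : (⟨b, hb⟩ : {c : ℝ // 0 ≤ c}) • v = b • v := rfl
      have h2 : nag T (b • v) = b * nag T v := by
        unfold nag
        simp only [Prod.smul_fst, Prod.smul_snd, Pi.smul_apply, smul_eq_mul]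
        rw [← Finset.mul_sum]
        ring
      have h3 : ∑ i, u i * (b • v).2 i = b * ∑ i, u i * v.2 i := by
        rw [Finset.mul_sum]
        refine Finset.sum_congr rfl fun i _ => ?_
        simp only [Prod.smul_snd, Pi.smul_apply, smul_eq_mul]
        ring
      rw [h1, h2, h3]
      have h4 := mul_le_mul_of_nonneg_left hv hb
      simp only [Prod.smul_fst, smul_eq_mul]
      linarith
  have hcl : IsClosed {v : ℝ × (Fin n → ℝ) | ∑ i, u i * v.2 i ≤ a * v.1 + C * nag T v} := by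
    unfold nag
    refine isClosed_le ?_ ?_
    · exact continuous_finsetSum _ fun j _ =>
        continuous_const.mul ((continuous_apply j).comp continuous_snd)
    · refine (continuous_const.mul continuous_fst).add (continuous_const.mul ?_)
      refine (continuous_const.mul continuous_fst).sub ?_
      exact continuous_finsetSum _ fun j _ => (continuous_apply j).comp continuous_snd
  exact closure_minimal (fun v hv => hspan v hv) hcl hx

/-- Bounded against all admissible unit vectors. -/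
theorem sqs_le {n : ℕ} {T : Finset (Fin n)} {v : ℝ × (Fin n → ℝ)} {B : ℝ}
    (h : ∀ u : Fin n → ℝ, (∀ j ∉ T, 0 ≤ u j) → ∑ i, u i ^ 2 ≤ 1 → ∑ i, u i * v.2 i ≤ B) :
    0 ≤ B ∧ sqs T v ≤ B ^ 2 := by
  classical
  have hB : 0 ≤ B := by
    have := h (fun _ => 0) (fun _ _ => le_rfl) (by simp)
    simpa using this
  refine ⟨hB, ?_⟩
  obtain ⟨φ, hφ⟩ : ∃ φ : Fin n → ℝ, φ = fun i => if i ∈ T then v.2 i else max (v.2 i) 0 := ⟨_, rfl⟩
  have hS : sqs T v = ∑ i, φ i ^ 2 := by
    unfold sqs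
    rw [← Finset.sum_add_sum_compl T (fun i => φ i ^ 2)]
    congr 1
    · refine Finset.sum_congr rfl fun i hi => ?_
      rw [hφ]
      simp only [if_pos hi]
    · refine Finset.sum_congr rfl fun i hi => ?_
      rw [Finset.mem_compl] at hi
      rw [hφ]
      simp only [if_neg hi]
  have hφ2 : ∀ i, φ i * v.2 i = φ i ^ 2 := by
    intro i
    rw [hφ]
    by_cases hi : i ∈ T
    · simp only [if_pos hi]
      ring
    · simp only [if_neg hi]
      rcases le_total (v.2 i) 0 with h0 | h0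
      · rw [max_eq_right h0]
        ring
      · rw [max_eq_left h0]
        ring
  rw [hS]
  have hnn : 0 ≤ ∑ i, φ i ^ 2 := Finset.sum_nonneg fun i _ => sq_nonneg _
  obtain ⟨R, hR⟩ : ∃ R, R = √(∑ i, φ i ^ 2) := ⟨_, rfl⟩
  have hR2 : R ^ 2 = ∑ i, φ i ^ 2 := by rw [hR, Real.sq_sqrt hnn]
  have hR0 : 0 ≤ R := by rw [hR]; exact Real.sqrt_nonneg _
  rcases hR0.eq_or_lt with h0 | h0
  · rw [← hR2, ← h0]
    have := sq_nonneg B
    simpa using this
  have h1 := h (fun i => φ i / R) (fun j hj => by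
    refine div_nonneg ?_ hR0
    rw [hφ]
    simp only [if_neg hj]
    exact le_max_right _ _) (by
    have : ∀ i, (φ i / R) ^ 2 = φ i ^ 2 / R ^ 2 := fun i => div_pow _ _ _
    simp only [this]
    rw [← Finset.sum_div, ← hR2, div_self (by positivity)])
  have h2 : ∑ i, φ i / R * v.2 i = R := by
    have : ∀ i, φ i / R * v.2 i = φ i ^ 2 / R := fun i => by
      rw [← hφ2 i]
      ring
    simp only [this]
    rw [← Finset.sum_div, ← hR2]
    field_simp
  rw [h2] at h1
  rw [← hR2]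
  exact pow_le_pow_left₀ hR0 h1 2

theorem cauchy {n : ℕ} {u w : Fin n → ℝ} (hu : ∑ i, u i ^ 2 ≤ 1) :
    ∑ i, u i * w i ≤ √(∑ i, w i ^ 2) := by
  have h1 := Finset.sum_mul_sq_le_sq_mul_sq Finset.univ u w
  have h2 : (0 : ℝ) ≤ ∑ i, w i ^ 2 := Finset.sum_nonneg fun i _ => sq_nonneg _
  refine Real.le_sqrt_of_sq_le (h1.trans ?_)
  calc (∑ i, u i ^ 2) * ∑ i, w i ^ 2 ≤ 1 * ∑ i, w i ^ 2 := mul_le_mul_of_nonneg_right hu h2
    _ = _ := one_mul _

theorem nag_single {n : ℕ} (T : Finset (Fin n)) (j : Fin n) :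
    nag T ((0 : ℝ), (Pi.single j (-1 : ℝ) : Fin n → ℝ)) = if j ∈ T then 1 else 0 := by
  classical
  unfold nag
  simp only [mul_zero, zero_sub]
  split_ifs with hj
  · rw [Finset.sum_eq_single_of_mem j hj fun i _ hij => Pi.single_eq_of_ne hij _,
      Pi.single_eq_same]
    norm_num
  · rw [Finset.sum_eq_zero fun i hi => Pi.single_eq_of_ne (fun h => hj (by rw [← h]; exact hi)) _]
    norm_num

/-- The exceptional classes satisfy the linear inequalities. -/
theorem single_le {n : ℕ} {T : Finset (Fin n)} {u : Fin n → ℝ} (hu : ∀ j ∉ T, 0 ≤ u j)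
    (hu1 : ∑ i, u i ^ 2 ≤ 1) (j : Fin n) {a C : ℝ} (hC : 1 ≤ C) :
    ∑ i, u i * ((0 : ℝ), (Pi.single j (-1 : ℝ) : Fin n → ℝ)).2 i ≤
      a * ((0 : ℝ), (Pi.single j (-1 : ℝ) : Fin n → ℝ)).1 +
        C * nag T ((0 : ℝ), (Pi.single j (-1 : ℝ) : Fin n → ℝ)) := by
  classical
  rw [nag_single]
  have h1 : ∑ i, u i * ((0 : ℝ), (Pi.single j (-1 : ℝ) : Fin n → ℝ)).2 i = - u j := by
    simp only
    rw [Finset.sum_eq_single_of_mem j (Finset.mem_univ j) fun i _ hij => by
      rw [Pi.single_eq_of_ne hij, mul_zero], Pi.single_eq_same]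
    ring
  rw [h1]
  have h2 : u j ^ 2 ≤ 1 :=
    (Finset.single_le_sum (f := fun i => u i ^ 2) (fun i _ => sq_nonneg _)
      (Finset.mem_univ j)).trans hu1
  have h3 : - 1 ≤ u j := by nlinarith
  simp only [mul_zero, zero_add]
  split_ifs with hj
  · linarith
  · have := hu j hj
    linarith

theorem result (n : ℕ) :
    ∃ f : ℕ → MvPolynomial (Fin n × Fin 2) ℂ, (∀ k, f k ≠ 0) ∧
      ∀ p : Fin n → Fin 2 → ℂ,
        (∀ k, MvPolynomial.eval (fun q : Fin n × Fin 2 => p q.1 q.2) (f k) ≠ 0) →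
        ∀ T : Finset (Fin n), 10 ≤ T.card →
          -- plane curves
          (∀ (G : MvPolynomial (Fin 3) ℂ) (d : ℕ) (w : Fin n → ℕ), Curve p G d w →
            0 < nag T (cls d w) ∧ (12 ≤ T.card → 1 - 3 / √(T.card : ℝ) ≤ nag T (cls d w))) ∧
          -- the closed cone of curves
          (∀ v ∈ curvCone p, 0 ≤ v.1 ∧ 0 ≤ nag T v ∧
            (nag T v = 0 → (∀ i ∈ T, v.2 i = v.1 / √(T.card : ℝ)) ∧ ∀ j ∉ T, v.2 j ≤ 0) ∧
            (∀ ε : ℝ, 0 < ε →
              sqs T v ≤ ((1 + ε) * v.1 + (1 + √(T.card : ℝ) / (8 * ε)) * nag T v) ^ 2) ∧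
            (12 ≤ T.card → sqs T v ≤ (v.1 + 5 / 4 * nag T v) ^ 2) ∧
            (13 ≤ T.card → sqs T v ≤ (v.1 + nag T v) ^ 2)) ∧
          -- nef classes
          (13 ≤ T.card → ∀ (c : ℝ) (x : Fin n → ℝ), 0 ≤ c → (∀ j ∉ T, 0 ≤ x j) →
            (√(T.card : ℝ) + 1) * ∑ i, x i ^ 2 + (√(T.card : ℝ) - 1) * c ^ 2 ≤
              2 * c * ∑ i ∈ T, x i →
            ∀ v ∈ curvCone p, 0 ≤ c * v.1 - ∑ i, x i * v.2 i) := by
  classical
  obtain ⟨Z, hZ, h⟩ := SH.exists_fam (Fin n × Fin 2)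
  refine ⟨Z, hZ, fun p hp0 T hT => ?_⟩
  have hp := (h _).1 hp0
  obtain ⟨q, hq⟩ : ∃ q, q = √(T.card : ℝ) := ⟨_, rfl⟩
  have hTR : (10 : ℝ) ≤ T.card := by exact_mod_cast hT
  have hq3 : 3 < q := by
    rw [hq, Real.lt_sqrt (by norm_num)]
    linarith
  have hq2 : q ^ 2 = T.card := by rw [hq, Real.sq_sqrt (by positivity)]
  rw [← hq]
  have hnag : ∀ (d : ℕ) (w : Fin n → ℕ),
      nag T (cls d w) = √(T.card : ℝ) * d - ∑ i ∈ T, (w i : ℝ) := fun d w => rfl
  -- the linear inequalities with a given constant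
  have hlin : ∀ (κ : ℝ), 1 ≤ κ → 12 ≤ T.card → ((13 ≤ T.card ∧ κ = 1) ∨ κ = 5 / 4) →
      ∀ u : Fin n → ℝ, (∀ j ∉ T, 0 ≤ u j) → ∑ i, u i ^ 2 ≤ 1 →
      ∀ v ∈ curvCone p, ∑ i, u i * v.2 i ≤ v.1 + κ * nag T v := by
    intro κ hκ1 h12 hκ u hu hu1 v hv
    have := lin (p := p) (T := T) (u := u) (a := 1) (C := κ) (fun v hv => by
      rcases hv with ⟨G, d, w, hG, rfl⟩ | ⟨j, rfl⟩
      · have h1 := norm_le hp hG T h12 hκ
        have h2 := cauchy (w := fun i => (w i : ℝ)) hu1
        rw [hnag]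
        show ∑ i, u i * (w i : ℝ) ≤ 1 * (d : ℝ) + κ * (√(T.card : ℝ) * d - ∑ i ∈ T, (w i : ℝ))
        linarith
      · exact single_le hu hu1 j hκ1) v hv
    linarith
  have hlinε : ∀ (ε : ℝ), 0 < ε → ∀ u : Fin n → ℝ, (∀ j ∉ T, 0 ≤ u j) → ∑ i, u i ^ 2 ≤ 1 →
      ∀ v ∈ curvCone p, ∑ i, u i * v.2 i ≤ (1 + ε) * v.1 + (1 + q / (8 * ε)) * nag T v := by
    intro ε hε u hu hu1 v hv
    refine lin (p := p) (T := T) (u := u) (fun v hv => ?_) v hv
    have hC : 1 ≤ 1 + q / (8 * ε) := by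
      have : 0 ≤ q / (8 * ε) := by positivity
      linarith
    rcases hv with ⟨G, d, w, hG, rfl⟩ | ⟨j, rfl⟩
    · have h1 := sum_sq_le hp hG
      have h2 := cauchy (w := fun i => (w i : ℝ)) hu1
      have h3 := nag_pos hp hG T hT
      have hd := degree_pos hG
      have hdR : (1 : ℝ) ≤ d := by exact_mod_cast hd
      have h4 : √(∑ i, (w i : ℝ) ^ 2) ≤ d + 1 / 2 := by
        refine Real.sqrt_le_iff.2 ⟨by linarith, ?_⟩
        have h5 : ∑ i, (w i : ℝ) ^ 2 ≤ (d : ℝ) ^ 2 + d := by exact_mod_cast h1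
        nlinarith
      rw [hnag, ← hq]
      rw [← hq] at h3
      obtain ⟨S, hS⟩ : ∃ S, S = ∑ i ∈ T, w i := ⟨_, rfl⟩
      have hSR : ∑ i ∈ T, (w i : ℝ) = S := by rw [hS, Nat.cast_sum]
      rw [hSR] at h3 ⊢
      show ∑ i, u i * (w i : ℝ) ≤ (1 + ε) * (d : ℝ) + (1 + q / (8 * ε)) * (q * d - S)
      -- an integer which is positive is at least one
      have hS0 : (0 : ℝ) ≤ S := Nat.cast_nonneg _
      have h6 : (1 : ℝ) ≤ T.card * (d : ℝ) ^ 2 - (S : ℝ) ^ 2 := by
        have h7 : (S : ℝ) ^ 2 < T.card * (d : ℝ) ^ 2 := by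
          rw [← hq2, ← mul_pow]
          exact pow_lt_pow_left₀ h3 hS0 (by norm_num)
        have h8 : S ^ 2 < T.card * d ^ 2 := by exact_mod_cast h7
        have h9 : S ^ 2 + 1 ≤ T.card * d ^ 2 := h8
        have h10 : ((S : ℝ)) ^ 2 + 1 ≤ T.card * (d : ℝ) ^ 2 := by exact_mod_cast h9
        linarith
      have h7 : (1 : ℝ) ≤ (q * d - S) * (q * d + S) := by
        rw [← hq2] at h6
        linarith
      have h8 : (1 : ℝ) ≤ (q * d - S) * (2 * (q * d)) := by
        have : (q * d - S) * (q * d + S) ≤ (q * d - S) * (2 * (q * d)) :=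
          mul_le_mul_of_nonneg_left (by linarith) (by linarith)
        linarith
      have h9 : 1 / 2 ≤ ε * d + q / (8 * ε) * (q * d - S) := by
        have hεd : 0 < ε * d := by positivity
        have h10 : q / (8 * ε) * (q * d - S) * (16 * (ε * d)) = (q * d - S) * (2 * (q * d)) := by
          field_simp
          ring
        have h11 : 1 / (16 * (ε * d)) ≤ q / (8 * ε) * (q * d - S) := by
          rw [div_le_iff₀ (by positivity), h10]
          exact h8
        have h12 : 1 / 2 ≤ ε * d + 1 / (16 * (ε * d)) := by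
          have h13 : 0 ≤ (4 * (ε * d) - 1) ^ 2 / (16 * (ε * d)) := by positivity
          have h14 : (4 * (ε * d) - 1) ^ 2 / (16 * (ε * d)) = ε * d + 1 / (16 * (ε * d)) - 1 / 2 := by
            field_simp
            ring
          linarith
        linarith
      have h10 : 0 ≤ q * d - S := by linarith
      linarith
    · exact single_le hu hu1 j hC
  -- the remaining claims
  have hnef : ∀ v ∈ curvCone p, 0 ≤ nag T v := by
    intro v hv
    have := lin (p := p) (T := T) (u := fun _ => 0) (a := 0) (C := 1) (fun v hv => by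
      rcases hv with ⟨G, d, w, hG, rfl⟩ | ⟨j, rfl⟩
      · have h1 := nag_pos hp hG T hT
        have h2 := hnag d w
        simp only [zero_mul, Finset.sum_const_zero, zero_add, one_mul]
        linarith
      · rw [nag_single]
        simp only [zero_mul, Finset.sum_const_zero, zero_add, one_mul]
        split_ifs <;> norm_num) v hv
    simpa using this
  have hdeg : ∀ v ∈ curvCone p, 0 ≤ v.1 := by
    intro v hv
    have := lin (p := p) (T := T) (u := fun _ => 0) (a := 1) (C := 0) (fun v hv => by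
      rcases hv with ⟨G, d, w, hG, rfl⟩ | ⟨j, rfl⟩
      · simp only [zero_mul, Finset.sum_const_zero, add_zero, one_mul]
        exact Nat.cast_nonneg _
      · simp) v hv
    simpa using this
  refine ⟨fun G d w hG => ⟨?_, fun h12 => ?_⟩, fun v hv => ⟨hdeg v hv, hnef v hv, ?_, ?_, ?_, ?_⟩, ?_⟩
  · have h1 := nag_pos hp hG T hT
    rw [hnag]
    linarith
  · have h1 := gap_form hp hG.homogeneous (fun i => (hG.mult i).1) hG.irreducible.ne_zero
      (degree_pos hG) T hT (Or.inl h12)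
    rw [hnag, hq]
    linarith
  · -- the face
    intro h0
    have hS : sqs T v ≤ v.1 ^ 2 := by
      refine le_of_forall_pos_le_add fun η hη => ?_
      have hv1 := hdeg v hv
      obtain ⟨ε, hε⟩ : ∃ ε, ε = min 1 (η / (3 * v.1 ^ 2 + 1)) := ⟨_, rfl⟩
      have hε0 : 0 < ε := by rw [hε]; positivity
      have hε1 : ε ≤ 1 := by rw [hε]; exact min_le_left _ _
      have hε2 : ε * (3 * v.1 ^ 2 + 1) ≤ η := by
        have : ε ≤ η / (3 * v.1 ^ 2 + 1) := by rw [hε]; exact min_le_right _ _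
        rwa [le_div_iff₀ (by positivity)] at this
      have h1 := (sqs_le (T := T) (v := v) (B := (1 + ε) * v.1)
        (fun u hu hu1 => by
          have := hlinε ε hε0 u hu hu1 v hv
          rw [h0, mul_zero, add_zero] at this
          exact this)).2
      nlinarith [sq_nonneg v.1, mul_nonneg hε0.le (sq_nonneg v.1)]
    have hq0 : q ≠ 0 := by linarith
    have hsum : ∑ i ∈ T, v.2 i = q * v.1 := by
      unfold nag at h0
      rw [← hq] at h0
      linarith
    have hvar : ∑ i ∈ T, (v.2 i - v.1 / q) ^ 2 = ∑ i ∈ T, v.2 i ^ 2 - v.1 ^ 2 := by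
      have h1 : ∀ i ∈ T, (v.2 i - v.1 / q) ^ 2 =
          v.2 i ^ 2 - 2 * (v.1 / q) * v.2 i + (v.1 / q) ^ 2 := fun i _ => by ring
      rw [Finset.sum_congr rfl h1, Finset.sum_add_distrib, Finset.sum_sub_distrib,
        ← Finset.mul_sum, hsum, Finset.sum_const, nsmul_eq_mul, ← hq2]
      field_simp
      ring
    have hnn1 : 0 ≤ ∑ i ∈ T, (v.2 i - v.1 / q) ^ 2 := Finset.sum_nonneg fun i _ => sq_nonneg _
    have hnn2 : 0 ≤ ∑ i ∈ Tᶜ, max (v.2 i) 0 ^ 2 := Finset.sum_nonneg fun i _ => sq_nonneg _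
    unfold sqs at hS
    constructor
    · intro i hi
      have h1 : (v.2 i - v.1 / q) ^ 2 ≤ 0 :=
        (Finset.single_le_sum (f := fun i => (v.2 i - v.1 / q) ^ 2) (fun i _ => sq_nonneg _)
          hi).trans (by linarith)
      have h2 : v.2 i - v.1 / q = 0 := by
        have := le_antisymm h1 (sq_nonneg _)
        exact pow_eq_zero_iff (by norm_num) |>.1 this
      linarith
    · intro j hj
      have h1 : max (v.2 j) 0 ^ 2 ≤ 0 :=
        (Finset.single_le_sum (f := fun i => max (v.2 i) 0 ^ 2) (fun i _ => sq_nonneg _)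
          (Finset.mem_compl.2 hj)).trans (by linarith)
      have h2 : max (v.2 j) 0 = 0 := by
        have := le_antisymm h1 (sq_nonneg _)
        exact pow_eq_zero_iff (by norm_num) |>.1 this
      exact (le_max_left _ _).trans h2.le
  · exact fun ε hε => (sqs_le fun u hu hu1 => hlinε ε hε u hu hu1 v hv).2
  · exact fun h12 => (sqs_le fun u hu hu1 =>
      hlin (5 / 4) (by norm_num) h12 (Or.inr rfl) u hu hu1 v hv).2
  · intro h13
    have := (sqs_le fun u hu hu1 =>
      hlin 1 le_rfl (by omega) (Or.inl ⟨h13, rfl⟩) u hu hu1 v hv).2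
    rwa [one_mul] at this
  · -- nef classes
    intro h13 c x hc hx hcx v hv
    rcases hc.eq_or_lt with h0 | h0
    · rw [← h0] at hcx ⊢
      have h1 : ∑ i, x i ^ 2 ≤ 0 := by
        have h2 : 0 ≤ ∑ i, x i ^ 2 := Finset.sum_nonneg fun i _ => sq_nonneg _
        nlinarith
      have h2 : ∀ i, x i = 0 := by
        intro i
        have h3 : x i ^ 2 ≤ 0 := (Finset.single_le_sum (f := fun i => x i ^ 2)
          (fun i _ => sq_nonneg _) (Finset.mem_univ i)).trans h1
        exact pow_eq_zero_iff (by norm_num) |>.1 (le_antisymm h3 (sq_nonneg _))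
      simp [h2]
    obtain ⟨μ, hμ⟩ : ∃ μ, μ = c / (q + 1) := ⟨_, rfl⟩
    have hμ0 : 0 < μ := by rw [hμ]; positivity
    have hμc : μ * (q + 1) = c := by
      rw [hμ]
      field_simp
    have h1 := hlin 1 le_rfl (by omega) (Or.inl ⟨h13, rfl⟩)
      (fun i => x i / μ - if i ∈ T then 1 else 0) (fun j hj => by
        simp only [if_neg hj, sub_zero]
        exact div_nonneg (hx j hj) hμ0.le) (by
        have h2 : ∀ i, (x i / μ - if i ∈ T then (1 : ℝ) else 0) ^ 2 =
            x i ^ 2 / μ ^ 2 - (if i ∈ T then 2 * (x i / μ) else 0) + (if i ∈ T then 1 else 0) := by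
          intro i
          split_ifs <;> ring
        simp only [h2]
        rw [Finset.sum_add_distrib, Finset.sum_sub_distrib, ← Finset.sum_div, Finset.sum_ite_mem,
          Finset.sum_ite_mem, Finset.univ_inter, Finset.sum_const, ← Finset.mul_sum,
          ← Finset.sum_div, nsmul_eq_mul, mul_one, ← hq2]
        have h3 : (∑ i, x i ^ 2) / μ ^ 2 - 2 * ((∑ i ∈ T, x i) / μ) + q ^ 2 =
            (∑ i, x i ^ 2 - 2 * μ * ∑ i ∈ T, x i + q ^ 2 * μ ^ 2) / μ ^ 2 := by
          field_simp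
        rw [h3, div_le_one (by positivity)]
        rw [← hμc] at hcx
        have hq1 : 0 < q + 1 := by linarith
        have h4 : (q + 1) * (∑ i, x i ^ 2 + (q - 1) * (q + 1) * μ ^ 2) ≤
            (q + 1) * (2 * μ * ∑ i ∈ T, x i) := by
          nlinarith [hcx]
        have h5 := le_of_mul_le_mul_left h4 hq1
        nlinarith [h5]) v hv
    have h2 : ∑ i, (x i / μ - if i ∈ T then (1 : ℝ) else 0) * v.2 i =
        (∑ i, x i * v.2 i) / μ - ∑ i ∈ T, v.2 i := by
      have h3 : ∀ i, (x i / μ - if i ∈ T then (1 : ℝ) else 0) * v.2 i =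
          x i * v.2 i / μ - if i ∈ T then v.2 i else 0 := by
        intro i
        split_ifs <;> ring
      simp only [h3]
      rw [Finset.sum_sub_distrib, ← Finset.sum_div, Finset.sum_ite_mem, Finset.univ_inter]
    rw [h2] at h1
    unfold nag at h1
    rw [← hq] at h1
    have h4 : (∑ i, x i * v.2 i) / μ ≤ (q + 1) * v.1 := by linarith
    rw [div_le_iff₀ hμ0] at h4
    have h5 : (q + 1) * v.1 * μ = c * v.1 := by
      rw [← hμc]
      ring
    rw [h5] at h4
    linarith

end Pool.Agent.Results.MP_309968_ag.NagataRays
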