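import Mathlib
import Pool.Agent.Y205.AV.Large
import Pool.Agent.Y939.NC.Reg
import Pool.Agent.Q310.FP.Fourth
import Pool.Agent.Q310.FP.Gap
import Pool.Agent.Q310.FP.One
import Pool.Agent.TH167.T3.Zar

set_option autoImplicit false

/-!
# The cone of curves: the conjectural cone and explicitly restricted negative curves span it

Let `p 1, …, p n`, `n ≥ 4`, be very general points of the complex projective plane and `X` the blow-up.
The closed cone of curves is contained in the closed convex cone spanned by the positive cone, the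
classes of the `(-1)`-curves, and the classes `(d; w)` of the irreducible curves `C` with `C ^ 2 < 0`,
other than the `(-1)`-curves, which satisfy all of the following (`Remaining`):
* `K C > 0`, and `K C - C ^ 2 < 10011 (μ + 1) ^ 2` for every upper bound `μ` of the `w i`;
* at least ten of the `w i` are at least `4`;
* the gap inequalities `AboveGap`: for `d > 0` and every set `T` of at least ten points, if `|T| ≥ 12` or
  `3` does not divide `d` then `∑_T w i + 1 - 3 / √|T| ≤ √|T| d`, and if the `w i`, `i ∈ T`, are `k` or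
  `k + 1`, `k ≥ 1`, then `∑_T (w i) ^ 2 < d ^ 2` (with two exceptional degrees for `|T| = 10`, `k = 1`);
* quadratic transformations carry `(d; w)` to the class `(d1; w1)`, `d1 ≤ d`, `w1 i ≤ w i`, of an
  irreducible curve at other very general points, which is standard, neither `Large` nor `Good`, and
  satisfies `Rem4` (bounds of order four in the fourth multiplicity), `AboveGap` and `OneLarge`.
Question Q1 asks whether the last kind of classes may be omitted.
-/

namespace Pool.Agent.Results.MP_309968_ag.RemainingNegativeCurves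

open MvPolynomial Pool.Agent.TH167 Pool.Agent.TH167.SHDefs Pool.Agent.Q310.FP
open Pool.Agent.Y205.AV (Large)
open Pool.Agent.Y939.NC (Good)

/-- The class of degree `d` and multiplicities `w` in the real vector space of classes. -/
def cls {n : ℕ} (d : ℕ) (w : Fin n → ℕ) : ℝ × (Fin n → ℝ) := ((d : ℝ), fun i => (w i : ℝ))

/-- The classes of the exceptional curves `E i`. -/
def exceptional (n : ℕ) : Set (ℝ × (Fin n → ℝ)) :=
  {v | ∃ i : Fin n, v = ((0 : ℝ), (Pi.single i (-1 : ℝ) : Fin n → ℝ))}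

/-- The classes of the irreducible curves on the blow-up. -/
def curveClasses {n : ℕ} (p : Fin n → Fin 2 → ℂ) : Set (ℝ × (Fin n → ℝ)) :=
  {v | ∃ (G : MvPolynomial (Fin 3) ℂ) (d : ℕ) (w : Fin n → ℕ), Curve p G d w ∧ v = cls d w} ∪
    exceptional n

/-- The classes of the `(-1)`-curves on the blow-up. -/
def minusOneClasses {n : ℕ} (p : Fin n → Fin 2 → ℂ) : Set (ℝ × (Fin n → ℝ)) :=
  {v | ∃ (G : MvPolynomial (Fin 3) ℂ) (d : ℕ) (w : Fin n → ℕ), MinusOne p G d w ∧ v = cls d w} ∪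
    exceptional n

/-- The positive cone. -/
def positiveCone (n : ℕ) : Set (ℝ × (Fin n → ℝ)) :=
  {v | 0 ≤ v.1 ∧ ∑ i, v.2 i ^ 2 ≤ v.1 ^ 2}

/-- The closed convex cone spanned by a set of classes. -/
def closedCone {n : ℕ} (S : Set (ℝ × (Fin n → ℝ))) : Set (ℝ × (Fin n → ℝ)) :=
  closure (Submodule.span {c : ℝ // 0 ≤ c} S : Set (ℝ × (Fin n → ℝ)))

/-- The restrictions on the class `(d; w)` of a negative curve which is not a `(-1)`-curve; `VG` are
the very general point sets. -/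
structure Remaining (N0 : ℕ) {n : ℕ} (VG : (Fin n → Fin 2 → ℂ) → Prop) (d : ℕ) (w : Fin n → ℕ) :
    Prop where
  neg : inter d w d w < 0
  can : 0 < interK d w
  genus : ∀ μ : ℕ, (∀ i, w i ≤ μ) → interK d w - inter d w d w < 10011 * ((μ : ℤ) + 1) ^ 2
  ten : 10 ≤ (Finset.univ.filter fun i => 4 ≤ w i).card
  gap : AboveGap d w
  form : ∃ (p1 : Fin n → Fin 2 → ℂ) (d1 : ℕ) (w1 : Fin n → ℕ) (C1 : MvPolynomial (Fin 3) ℂ),
    VG p1 ∧ Curve p1 C1 d1 w1 ∧ Relation.ReflTransGen Quadratic (d, w) (d1, w1) ∧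
    Standard d1 w1 ∧ d1 ≤ d ∧ (∀ i, w1 i ≤ w i) ∧ ¬ Large d1 w1 ∧ ¬ Good N0 d1 w1 ∧
    Rem4 d1 w1 ∧ AboveGap d1 w1 ∧ OneLarge d1 w1

theorem result : ∃ N0 : ℕ, ∀ n : ℕ, 4 ≤ n →
    ∃ f : ℕ → MvPolynomial (Fin n × Fin 2) ℂ, (∀ k, f k ≠ 0) ∧
      ∀ p : Fin n → Fin 2 → ℂ,
        (∀ k, MvPolynomial.eval (fun q : Fin n × Fin 2 => p q.1 q.2) (f k) ≠ 0) →
        closedCone (curveClasses p) ⊆
          closedCone (positiveCone n ∪ minusOneClasses p ∪
            {v | ∃ (G : MvPolynomial (Fin 3) ℂ) (d : ℕ) (w : Fin n → ℕ), Curve p G d w ∧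
              ¬ MinusOne p G d w ∧ v = cls d w ∧
              Remaining N0 (fun p1 => ∀ k,
                MvPolynomial.eval (fun q : Fin n × Fin 2 => p1 q.1 q.2) (f k) ≠ 0) d w}) := by
  classical
  obtain ⟨N0, hN0⟩ := Pool.Agent.Y939.NC.reg_exp
  refine ⟨N0, fun n hn => ?_⟩
  obtain ⟨Z, hZ, h⟩ := SH.exists_fam (Fin n × Fin 2)
  refine ⟨Z, hZ, fun p hp0 => closure_mono (Submodule.span_mono ?_)⟩
  have hp := (h _).1 hp0
  rintro v (⟨C, d, w, hC, rfl⟩ | hv)
  swap
  · exact Or.inl (Or.inr (Or.inr hv))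
  by_cases hpos : 0 ≤ inter d w d w
  · -- nonnegative self-intersection
    refine Or.inl (Or.inl ⟨Nat.cast_nonneg _, ?_⟩)
    have h1 : ((inter d w d w : ℤ) : ℝ) = (d : ℝ) * d - ∑ i, (w i : ℝ) * w i := by
      unfold inter
      push_cast
      rfl
    have h2 : (0 : ℝ) ≤ ((inter d w d w : ℤ) : ℝ) := by exact_mod_cast hpos
    show ∑ i, (w i : ℝ) ^ 2 ≤ (d : ℝ) ^ 2
    simp only [sq]
    linarith
  push Not at hpos
  by_cases hM : MinusOne p C d w
  · exact Or.inl (Or.inr (Or.inl ⟨C, d, w, hM, rfl⟩))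
  refine Or.inr ⟨C, d, w, hC, hM, rfl, ?_⟩
  obtain ⟨r, rfl⟩ : ∃ r, n = r + 4 := ⟨n - 4, by omega⟩
  obtain ⟨h1, h2, h3⟩ := SH.curve_iff.1 hC
  have hneg' := hpos
  rw [SH.inter_eq] at hneg'
  have hne' : ¬ (SH.ip d w d w = -1 ∧ SH.kk d w = 1) := fun h0 =>
    hM ⟨hC, by rw [SH.inter_eq, h0.1], by rw [SH.interK_eq, h0.2]⟩
  have hR : ∀ (d : ℕ) (w : Fin (r + 4) → ℕ), Standard d w →
      GE d w ∨ (¬ Large d w ∧ ¬ Good N0 d w ∧ Rem4 d w ∧ AboveGap d w ∧ OneLarge d w) := by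
    intro d w hs
    by_cases hG : GE d w
    · exact Or.inl hG
    · exact Or.inr ⟨fun h1 => hG fun K _ _ P hP => Pool.Agent.Y205.AV.large_exp h1 hP,
        fun h2 => hG fun K _ _ P hP => Pool.Agent.Y939.NC.good_exp hN0 hn hs h2 hP,
        (std_or4 hn d w hs).resolve_left hG, (gap_or d w).resolve_left hG,
        (one_or d w).resolve_left hG⟩
  obtain ⟨hK0, P1, d1, w1, C1, a1, a2, a3, a4, a5, a6, a7, a8, a9, hL, hG, h4, h5, h6⟩ :=
    neg_rem hn (R := fun d w => ¬ Large d w ∧ ¬ Good N0 d w ∧ Rem4 d w ∧ AboveGap d w ∧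
      OneLarge d w) hR hp hC hpos hM
  have hvd : virtdim d1 w1 = SH.chi d1 w1 - 1 := SH.virtdim_eq d1 w1
  have hchi : SH.chi d1 w1 ≤ 0 := by omega
  have h7 := SH.two_chi d1 w1
  rw [SH.inter_eq, SH.inter_eq] at a7
  rw [SH.interK_eq, SH.interK_eq] at a8
  have hchi2 : ((d1 + 2).choose 2 : ℤ) - ∑ i, ((w1 i + 1).choose 2 : ℤ) = SH.chi d1 w1 := by
    unfold SH.chi
    push_cast
    rfl
  have habs : |((d1 + 2).choose 2 : ℤ) - ∑ i, ((w1 i + 1).choose 2 : ℤ)| = - SH.chi d1 w1 := by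
    rw [hchi2, abs_of_nonpos hchi]
  have hX : 2 * SH.chi d1 w1 = SH.ip d w d w + SH.kk d w + 2 := by omega
  have hb1 : ∀ μ : ℕ, (∀ i, w1 i ≤ μ) →
      ∑ i, (w1 i : ℤ) + 4 * (- SH.chi d1 w1) < 25000 * ((μ : ℤ) + 1) ^ 2 := by
    intro μ hμ
    by_contra hcon
    rw [not_lt, ← habs] at hcon
    exact hL ⟨Finset.univ, μ, _, fun i _ => hμ i, fun i hi => absurd (Finset.mem_univ i) hi, le_rfl,
      Or.inl hcon⟩
  have hb2 : ∀ μ : ℕ, (∀ i, w1 i ≤ μ) →
      - SH.chi d1 w1 < ∑ i, (w1 i : ℤ) + 26 * ((μ : ℤ) + 1) ^ 2 := by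
    intro μ hμ
    by_contra hcon
    rw [not_lt, ← habs] at hcon
    exact hL ⟨Finset.univ, μ, _, fun i _ => hμ i, fun i hi => absurd (Finset.mem_univ i) hi, le_rfl,
      Or.inr (Or.inl hcon)⟩
  refine ⟨hpos, hK0, fun μ hμ => ?_, ?_, ?_, P1, d1, w1, C1, (h _).2 a1, a2, a3, a4, a5, a6, hL,
    hG, h4, h5, h6⟩
  · have hμ1 : ∀ i, w1 i ≤ μ := fun i => (a6 i).trans (hμ i)
    have g1 := hb1 μ hμ1
    have g2 := hb2 μ hμ1
    have hμ0 : 1 ≤ μ := by
      by_contra hcon
      have h0 : ∀ i, w i = 0 := fun i => by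
        have := hμ i
        omega
      have h5 : SH.ip d w d w = (d : ℤ) * d := by
        have : inter d w d w = (d : ℤ) * d := by
          unfold inter
          simp [h0]
        rw [← SH.inter_eq, this]
      have h6 : (0 : ℤ) ≤ (d : ℤ) * d := by positivity
      omega
    have hμR : (1 : ℤ) ≤ μ := by exact_mod_cast hμ0
    have h4 : (4 : ℤ) ≤ ((μ : ℤ) + 1) ^ 2 := by nlinarith
    rw [SH.inter_eq, SH.interK_eq]
    linarith
  · by_contra hcon
    refine hne' (T3.neg9 ?_ hp h1 h2 h3 hneg')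
    have : (Finset.univ.filter fun i => 4 ≤ w i).card ≤ 9 := by omega
    exact this
  · -- the gap inequalities for the curve itself
    refine (gap_or d w).resolve_left fun hGE => ?_
    -- a negative curve which is not a `(-1)`-curve has not the expected dimension
    have h8 := hGE ℂ p hp
    rw [TH442.NF.expDim_iff] at h8
    have hmem : C ∈ W609.CR.VS (fun j => W609.CR.aff (p j)) w d :=
      (SH.mem_VS _ _ _ _).2 ⟨h2, fun j => (h3 j).1⟩
    have hfin := W609.CR.vs_fin (fun j => W609.CR.aff (p j)) w d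
    have hpos' : 0 < Module.finrank ℂ ↥(W609.CR.VS (fun j => W609.CR.aff (p j)) w d) :=
      Module.finrank_pos_iff.2 ⟨⟨C, hmem⟩, 0, fun h7 => h1.ne_zero (congrArg Subtype.val h7)⟩
    have h9 := SH.two_chi d w
    have h10 : SH.chi d w ≤ 0 := by omega
    rw [max_eq_left h10] at h8
    omega

end Pool.Agent.Results.MP_309968_ag.RemainingNegativeCurves
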