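import Pool.Agent.Q54.SC.Mult

set_option autoImplicit false

/-!
# The cone of curves: all multiples of the remaining negative curves are outside of the subdivision closure

`System d v` (`Pool.Agent.Q78.SG.Sub.System`; degree `d`, multiset `v` of multiplicities) is the
smallest relation which contains

* the standard systems at `≥ 4` points with at most nine multiplicities larger than `2`;
* the standard systems at `≥ 4` points such that, for some `m ≥ 1` and
  `B = 2 ^ 17 (4 m ^ 2 + 8 m + 5) ^ 4`, at most five multiplicities are larger than `m` or those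
  larger than `m` have a sum `≤ 2 d - (4 m ^ 2 + 8 m + 5)`, and `d ≥ B` or at least `B + 3`
  multiplicities are not zero;
* the systems of degree `3 D` with `k` multiplicities `D` and `r` blocks of `M + 4` multiplicities,
  in each block one or two consecutive numbers, `k + r M = 9`, if all blocks have
  `≤ M (D + 1).choose 2` conditions, or all have more;

and is closed under the subdivision of one multiplicity `b` into the integral parts of
`(2 b - 1) / 4, 2 b / 4, (2 b + 1) / 4, (2 b + 2) / 4`, under that of `N` multiplicities into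
`b / 2, b / 2, (b + 1) / 2, (b + 1) / 2` each if the systems with `N` multiplicities `b` and with
`N` multiplicities `b + 1` are in it, and under the passage to a larger (smaller) degree if the
number of conditions is at most (at least) the number of forms.

Let `p 1, …, p n`, `n ≥ 4`, be very general points of the complex projective plane and `X` the blow-up.
The closed cone of curves is contained in the closed convex cone spanned by the positive cone, the
classes of the `(-1)`-curves, and the classes `(d; w)` of the irreducible curves `C` with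
`C ^ 2 < 0 < K C` such that no multiple `(k d; k w)`, `k ≥ 1`, is in the closure, and which are carried
by quadratic transformations to the class `(d1; w1)`, `d1 ≤ d`, `w1 ≤ w`, of an irreducible curve at
other very general points which is standard and no multiple of which is in the closure.
Question Q1 asks whether the last kind of classes may be omitted.
-/

namespace Pool.Agent.Results.MP_309968_ag.SubdivisionRays

open MvPolynomial Pool.Agent.TH167 Pool.Agent.TH167.SHDefs Pool.Agent.Q310.FP
open Pool.Agent.Q78.SG.Sub (System mults)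

/-- The class of degree `d` and multiplicities `w` in the real vector space of classes. -/
def cls {n : ℕ} (d : ℕ) (w : Fin n → ℕ) : ℝ × (Fin n → ℝ) := ((d : ℝ), fun i => (w i : ℝ))

/-- The classes of the exceptional curves `E i`. -/
def exceptional (n : ℕ) : Set (ℝ × (Fin n → ℝ)) :=
  {v | ∃ i : Fin n, v = ((0 : ℝ), (Pi.single i (-1 : ℝ) : Fin n → ℝ))}

/-- The classes of the irreducible curves on the blow-up. -/
def curveClasses {n : ℕ} (p : Fin n → Fin 2 → ℂ) : Set (ℝ × (Fin n → ℝ)) :=
  {v | ∃ (G : MvPolynomial (Fin 3) ℂ) (d : ℕ) (w : Fin n → ℕ), Curve p G d w ∧ v = cls d w} ∪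
    exceptional n

/-- The classes of the `(-1)`-curves on the blow-up. -/
def minusOneClasses {n : ℕ} (p : Fin n → Fin 2 → ℂ) : Set (ℝ × (Fin n → ℝ)) :=
  {v | ∃ (G : MvPolynomial (Fin 3) ℂ) (d : ℕ) (w : Fin n → ℕ), MinusOne p G d w ∧ v = cls d w} ∪
    exceptional n

/-- The positive cone. -/
def positiveCone (n : ℕ) : Set (ℝ × (Fin n → ℝ)) :=
  {v | 0 ≤ v.1 ∧ ∑ i, v.2 i ^ 2 ≤ v.1 ^ 2}

/-- The closed convex cone spanned by a set of classes. -/
def closedCone {n : ℕ} (S : Set (ℝ × (Fin n → ℝ))) : Set (ℝ × (Fin n → ℝ)) :=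
  closure (Submodule.span {c : ℝ // 0 ≤ c} S : Set (ℝ × (Fin n → ℝ)))

/-- The restrictions on the class `(d; w)` of a negative curve which is not a `(-1)`-curve; `VG` are
the very general point sets. -/
structure Outside {n : ℕ} (VG : (Fin n → Fin 2 → ℂ) → Prop) (d : ℕ) (w : Fin n → ℕ) :
    Prop where
  neg : inter d w d w < 0
  can : 0 < interK d w
  multiples : ∀ k : ℕ, 1 ≤ k → ¬ System (k * d) (mults fun i => k * w i)
  form : ∃ (p1 : Fin n → Fin 2 → ℂ) (d1 : ℕ) (w1 : Fin n → ℕ) (C1 : MvPolynomial (Fin 3) ℂ),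
    VG p1 ∧ Curve p1 C1 d1 w1 ∧ Relation.ReflTransGen Quadratic (d, w) (d1, w1) ∧
    Standard d1 w1 ∧ d1 ≤ d ∧ (∀ i, w1 i ≤ w i) ∧
    ∀ k : ℕ, 1 ≤ k → ¬ System (k * d1) (mults fun i => k * w1 i)

theorem result (n : ℕ) (hn : 4 ≤ n) :
    ∃ f : ℕ → MvPolynomial (Fin n × Fin 2) ℂ, (∀ k, f k ≠ 0) ∧
      ∀ p : Fin n → Fin 2 → ℂ,
        (∀ k, MvPolynomial.eval (fun q : Fin n × Fin 2 => p q.1 q.2) (f k) ≠ 0) →
        closedCone (curveClasses p) ⊆
          closedCone (positiveCone n ∪ minusOneClasses p ∪
            {v | ∃ (G : MvPolynomial (Fin 3) ℂ) (d : ℕ) (w : Fin n → ℕ), Curve p G d w ∧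
              ¬ MinusOne p G d w ∧ v = cls d w ∧
              Outside (fun p1 => ∀ k,
                MvPolynomial.eval (fun q : Fin n × Fin 2 => p1 q.1 q.2) (f k) ≠ 0) d w}) := by
  classical
  obtain ⟨Z, hZ, h⟩ := SH.exists_fam (Fin n × Fin 2)
  refine ⟨Z, hZ, fun p hp0 => closure_mono (Submodule.span_mono ?_)⟩
  have hp := (h _).1 hp0
  rintro v (⟨C, d, w, hC, rfl⟩ | hv)
  swap
  · exact Or.inl (Or.inr (Or.inr hv))
  by_cases hpos : 0 ≤ inter d w d w
  · -- nonnegative self-intersection
    refine Or.inl (Or.inl ⟨Nat.cast_nonneg _, ?_⟩)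
    have h1 : ((inter d w d w : ℤ) : ℝ) = (d : ℝ) * d - ∑ i, (w i : ℝ) * w i := by
      unfold inter
      push_cast
      rfl
    have h2 : (0 : ℝ) ≤ ((inter d w d w : ℤ) : ℝ) := by exact_mod_cast hpos
    show ∑ i, (w i : ℝ) ^ 2 ≤ (d : ℝ) ^ 2
    simp only [sq]
    linarith
  push Not at hpos
  by_cases hM : MinusOne p C d w
  · exact Or.inl (Or.inr (Or.inl ⟨C, d, w, hM, rfl⟩))
  refine Or.inr ⟨C, d, w, hC, hM, rfl, ?_⟩
  obtain ⟨hK0, P1, d1, w1, C1, a1, a2, a3, a4, a5, a6, a7, a8, -, -⟩ :=
    neg_rem hn (R := fun _ _ => True) (fun _ _ _ => Or.inr trivial) hp hC hpos hM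
  exact ⟨hpos, hK0, fun k hk => Pool.Agent.Q54.SC.multiple_not_system hp hC hpos hK0 hk,
    P1, d1, w1, C1, (h _).2 a1, a2, a3, a4, a5, a6, fun k hk =>
      Pool.Agent.Q54.SC.multiple_not_system a1 a2 (by rw [a7]; exact hpos) (by rw [a8]; exact hK0) hk⟩

end Pool.Agent.Results.MP_309968_ag.SubdivisionRays
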